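import Pool.Agent.H26.LG.Final
import Pool.Graph.R_seed8.Results.MP_07c73e_al.NotNormal

set_option autoImplicit false

/-!
# The plus-part is not normal for any type `(0, n)` with `n ≥ 4`

Sketch of the proof. Let `π` be the profinite loop-group of type `(0, n)`. Take an automorphism `α` of
the free profinite group on `X, Y` which sends `X`, `Y`, `XY` to conjugates of their `l`-th powers
(the last one exactly to its `l`-th power), where `l` is a unit congruent to `3` modulo `8`, and let
`β` be its conjugate under complex conjugation. By induction on the number of punctures (replacing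
two punctures by pairs of punctures) there is an element `Φ` of `Aut_lac` of `π` which acts as `α` on
the first pair of loops and as `β` on the second pair, each up to conjugation. Let `s` be the discrete
automorphism exchanging the two pairs (a half twist). If the plus-part was normal, the commutator of
`Φ` and `s` would be, up to an inner automorphism, a limit `W` of discrete automorphisms, and it
would send the first pair, transformed by `β`, to a conjugate of the first pair, transformed by `α`.
This is carried over to the type `(0, n - 1)` by filling in a puncture: a discrete automorphism which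
agrees with `W` on a suitable finite abelian quotient permutes no loops (as `W` does not), so it
induces an automorphism of the loop-group with one puncture less. For four punctures the last steps of
the library's proof for the type `(0,4)` apply.
-/

namespace Pool.Agent.Results.MP_07c73e_al.AllGenusZero

open Pool.Agent.Helper75.Defs Pool.Agent.Helper75.Basic Pool.Agent.Helper75.LacDefs
open Pool.Agent.Results.MP_07c73e_al.NotNormal (IsPrediscretification TPlusOf pre stdBasis
  stdBasis_disc mem_pre_self TPlusOf_std img imgBasis imgBasis_disc SHatOf_pre conj_mem_SHat)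

/-- For every type `(0,n)` with `n ≥ 4` there are two prediscretifications with different
plus-parts; the plus-part of the prediscretification of the standard discretification `π_{0,n}` is a
subgroup of `𝕋` which is not normal. The definitions are those of the library's module
`Pool.Graph.R_seed8.Results.MP_07c73e_al.NotNormal`. -/
theorem result (n : ℕ) (hn : 4 ≤ n) :
    (∃ P₀ P₁ : Set (Subgroup (PiHat 0 n)), IsPrediscretification P₀ ∧ IsPrediscretification P₁ ∧
      TPlusOf P₀ ≠ TPlusOf P₁) ∧
    ∃ (P : Set (Subgroup (PiHat 0 n))) (H : Subgroup (TT 0 n)), IsPrediscretification P ∧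
      (eta (SurfGroup 0 n)).range ∈ P ∧ (H : Set (TT 0 n)) = TPlusOf P ∧ ¬ H.Normal := by
  have hnn : ¬ (TPlus 0 n).Normal := by
    obtain ⟨m, rfl⟩ := Nat.exists_eq_add_of_le' hn
    exact Pool.Agent.H26.LG.not_normal m
  have hP : IsPrediscretification (pre (eta (SurfGroup 0 n)).range) :=
    ⟨_, ⟨stdBasis 0 n, stdBasis_disc.symm⟩, rfl⟩
  refine ⟨?_, pre (eta (SurfGroup 0 n)).range, TPlus 0 n, hP, mem_pre_self _, TPlusOf_std.symm,
    hnn⟩
  by_contra hcon
  push Not at hcon
  apply hnn
  constructor
  intro t ht s
  obtain ⟨φ, rfl⟩ := QuotientGroup.mk_surjective s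
  have h1 : TPlusOf (pre (eta (SurfGroup 0 n)).range) =
      TPlusOf (pre (img φ (eta (SurfGroup 0 n)).range)) :=
    hcon _ _ hP ⟨_, ⟨imgBasis φ (stdBasis 0 n), by rw [imgBasis_disc, stdBasis_disc]⟩, rfl⟩
  have h2 : cls φ * t * (cls φ)⁻¹ ∈
      TPlusOf (pre (img φ (eta (SurfGroup 0 n)).range)) := by
    obtain ⟨ψ, hψ, hψ1, rfl⟩ := ht
    refine ⟨φ * ψ * φ⁻¹, ?_, ?_, rfl⟩
    · rw [SHatOf_pre]
      exact conj_mem_SHat hψ
    · obtain ⟨v, hv, hv'⟩ := φ.lac
      obtain ⟨v', rfl⟩ := exists_unit v hv
      have h3 : LacWith ((v'⁻¹ : Zhatˣ) : Zhat) φ.invFun :=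
        LacWith.inverse φ.toCinv φ.left_inv hv'
      have h4 := LacWith.comp φ.toC hv' (LacWith.comp ψ.toC hψ1.with h3)
      rw [one_mul, Units.mul_inv] at h4
      exact h4.one
  rw [← h1, TPlusOf_std] at h2
  exact h2

end Pool.Agent.Results.MP_07c73e_al.AllGenusZero
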